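import Pool.Agent.H34.N6V.Targets

/-! Signs. -/

set_option autoImplicit false

open Polynomial NumberField IsDedekindDomain Pool.Agent.H32.QC Pool.Agent.H34.N6
  Pool.Agent.H13.DEV Pool.Agent.H34.N6V

namespace Pool.Agent.H59.N6V

/-- the sign of an element of `ZMod 2` -/
def chi (a : ZMod 2) : ℤ := if a = 0 then 1 else -1

theorem chi_add (a b : ZMod 2) : chi (a + b) = chi a * chi b := by
  revert a b
  decide

theorem chi_zero : chi 0 = 1 := by decide

theorem chi_sum {α : Type} (s : Finset α) (f : α → ZMod 2) :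
    chi (∑ i ∈ s, f i) = ∏ i ∈ s, chi (f i) := by
  classical
  induction s using Finset.induction_on with
  | empty => simp [chi_zero]
  | insert a s ha ih => rw [Finset.sum_insert ha, Finset.prod_insert ha, chi_add, ih]

/-- the exponent of a sign -/
def ex2 (a : ℤ) : ZMod 2 := if a = 1 then 0 else 1

theorem chi_ex2 {a : ℤ} (h : a = 1 ∨ a = -1) : chi (ex2 a) = a := by
  rcases h with rfl | rfl <;> decide

theorem zmod2_cases (a : ZMod 2) (h : a ≠ 0) : a = 1 := by
  revert a
  decide

theorem pf_GEN : T_GEN := by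
  intro ι T _ ψ hψ hs π hπ
  classical
  let x : T → ι → ZMod 2 := fun v j => ex2 (ψ v j)
  have htop : Submodule.span (ZMod 2) (Set.range x) = ⊤ := by
    by_contra hne
    obtain ⟨f, hf0, hf⟩ := Submodule.exists_le_ker_of_lt_top _ (lt_top_iff_ne_top.2 hne)
    let s : Finset ι := Finset.univ.filter fun j => f (Pi.single j 1) ≠ 0
    have hfx : ∀ y : ι → ZMod 2, f y = ∑ j ∈ s, y j := by
      intro y
      have h1 : f y = ∑ j, y j * f (Pi.single j 1) := by
        conv_lhs => rw [pi_eq_sum_univ' y]
        rw [map_sum]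
        refine Finset.sum_congr rfl fun j _ => ?_
        rw [map_smul, smul_eq_mul]
      rw [h1, Finset.sum_filter]
      refine Finset.sum_congr rfl fun j _ => ?_
      by_cases h : f (Pi.single j 1) = 0
      · simp [h]
      · rw [if_pos h, zmod2_cases _ h, mul_one]
    have hsne : s.Nonempty := by
      rw [Finset.nonempty_iff_ne_empty]
      intro h
      apply hf0
      ext y
      rw [LinearMap.comp_apply, hfx, h]
      simp
    obtain ⟨v, hv⟩ := hs s hsne
    have h2 : f (x v) = 0 := hf (Submodule.subset_span ⟨v, rfl⟩)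
    rw [hfx] at h2
    have h3 := chi_sum s (x v)
    rw [h2, chi_zero] at h3
    have h4 : ∏ j ∈ s, chi (x v j) = ∏ j ∈ s, ψ v j :=
      Finset.prod_congr rfl fun j _ => chi_ex2 (hψ v j)
    rw [h4, hv] at h3
    norm_num at h3
  have hy : (fun j => ex2 (π j)) ∈ Submodule.span (ZMod 2) (Set.range x) := by
    rw [htop]
    trivial
  obtain ⟨c, hc⟩ := Finsupp.mem_span_range_iff_exists_finsupp.1 hy
  refine ⟨c.support, fun j => ?_⟩
  have h5 : ∑ v ∈ c.support, x v j = ex2 (π j) := by
    have := congrFun hc j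
    rw [Finsupp.sum, Finset.sum_apply] at this
    rw [← this]
    refine Finset.sum_congr rfl fun v hv => ?_
    rw [Pi.smul_apply, zmod2_cases _ (Finsupp.mem_support_iff.1 hv), one_smul]
  have h6 := chi_sum c.support (fun v => x v j)
  rw [h5, chi_ex2 (hπ j)] at h6
  rw [h6]
  exact Finset.prod_congr rfl fun v _ => (chi_ex2 (hψ v j)).symm

end Pool.Agent.H59.N6V
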