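import Pool.Agent.H34.N6V.Targets
import Pool.Agent.H23.N6E.ECFI
import Pool.Agent.H12.QC.WB

/-! Squares at a place and squares modulo the factor. -/

set_option autoImplicit false

open Polynomial NumberField IsDedekindDomain Pool.Agent.H32.QC Pool.Agent.H34.N6
  Pool.Agent.H13.DEV Pool.Agent.H34.N6V

namespace Pool.Agent.H59.N6V

section

variable {k L : Type} [Field k] [NumberField k] [Field L] [NumberField L] [Algebra k L]

theorem over_finite (hBEL : T_BEL) (v : FPl k) : {w : FPl L | w.under (𝓞 k) = v}.Finite := by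
  obtain ⟨p, hp, hp1⟩ : ∃ p : k, p ≠ 0 ∧ ‖ic v p‖ < 1 := by
    obtain ⟨a, ha, ha0⟩ := Submodule.exists_mem_ne_zero_of_ne_bot v.ne_bot
    refine ⟨algebraMap (𝓞 k) k a, ?_, ?_⟩
    · exact (map_ne_zero_iff _ (RingOfIntegers.coe_injective)).2 ha0
    · have h1 : ‖ic v (algebraMap (𝓞 k) k a)‖ < 1 ↔ Valued.v (ic v (algebraMap (𝓞 k) k a)) < 1 :=
        Valued.toNormedField.norm_lt_one_iff
      have h2 : Valued.v (ic v (algebraMap (𝓞 k) k a)) = v.valuation k (algebraMap (𝓞 k) k a) :=
        HeightOneSpectrum.valuedAdicCompletion_eq_valuation' v _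
      rw [h1, h2]
      exact (HeightOneSpectrum.valuation_lt_one_iff_mem v a).2 ha
  refine (int_fin (algebraMap k L p⁻¹)).subset fun w hw h => ?_
  have hw' : w.under (𝓞 k) = v := hw
  have h1 : ‖ic (w.under (𝓞 k)) p‖ < 1 := by rw [hw']; exact hp1
  have h2 : ‖ic w (algebraMap k L p)‖ < 1 := (((hBEL k L w).1 p).2).2 h1
  rw [map_inv₀, map_inv₀, norm_inv] at h
  have h3 : 0 < ‖ic w (algebraMap k L p)‖ := by
    rw [norm_pos_iff]
    exact (_root_.map_ne_zero _).2 ((_root_.map_ne_zero _).2 hp)
  exact absurd ((inv_le_one₀ h3).1 h) (not_le.2 h2)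

theorem eval_ic' (P : k[X]) (w : FPl L) (θ : L) :
    eval (ic w θ) (P.map (kc k w)) = ic w (aeval θ P) := by
  rw [eval_map, aeval_def, Polynomial.hom_eval₂]

theorem exists_poly {P : k[X]} {e : L} (hG : Gen P e) (hP : P.Monic) (z : L) :
    ∃ Q : k[X], Q.degree < P.degree ∧ aeval e Q = z := by
  have h1 : z ∈ Algebra.adjoin k {e} := by rw [Pool.Agent.H23.N6E.gen_adjoin hG]; trivial
  rw [Algebra.adjoin_singleton_eq_range_aeval] at h1
  obtain ⟨Q, hQ⟩ := h1
  have hQ' : aeval e Q = z := hQ
  refine ⟨Q %ₘ P, degree_modByMonic_lt Q hP, ?_⟩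
  have h2 : aeval e P = 0 := by rw [← hG.mp]; exact minpoly.aeval k e
  have h3 := congrArg (aeval e) (modByMonic_add_div Q P)
  rw [map_add, map_mul, h2, zero_mul, add_zero, hQ'] at h3
  exact h3

/-- lifting to the integral polynomials -/
theorem exists_lift {v : FPl k} {F : Type} [Field F] {O : Subring k} {ρ : O →+* F}
    (hR : Resd v F O ρ) {Q : k[X]} (hQ : Int v Q) : ∃ Q' : O[X], Q'.map O.subtype = Q := by
  have h1 : Q ∈ Polynomial.lifts O.subtype := by
    rw [Polynomial.lifts_iff_coeff_lifts]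
    intro n
    exact ⟨⟨Q.coeff n, (hR.mem _).2 (hQ n)⟩, rfl⟩
  exact (Polynomial.mem_lifts _).1 h1

theorem pf_SQW (hCFI : T_CFI) (hHEN : T_HEN) (hBEL : T_BEL) : T_SQW := by
  classical
  intro k L _ _ _ _ _ P D e w F _ O ρ D' q hP hG hgood hR hD' hq
  set v : FPl k := w.under (𝓞 k) with hv
  have heP : aeval e P = 0 := by rw [← hG.mp]; exact minpoly.aeval k e
  have he1 : ∀ u : FPl L, u.under (𝓞 k) = v → ‖ic u e‖ ≤ 1 := by
    intro u hu
    refine Pool.Agent.H23.N6E.root_int (hP.map _) (fun i => poly_up (w := u) (by rw [hu]; exact hgood.intP) i) ?_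
    rw [eval_ic', heP, map_zero]
  have hint : ∀ (Q : k[X]), Int v Q → ‖ic w (aeval e Q)‖ ≤ 1 := by
    intro Q hQ
    rw [← eval_ic']
    exact Pool.Agent.H23.N6.eval_int (fun i => poly_up hQ i) (he1 w rfl)
  -- `D(e)` is a unit
  have hD1 : ‖ic w (aeval e D)‖ = 1 := by
    obtain ⟨a, b, ha, hb, hab⟩ := hgood.cop
    have h1 := congrArg (fun f => ic w (aeval e f)) hab
    simp only [map_add, map_mul, heP, mul_zero, zero_add, map_one] at h1
    have h2 := congrArg norm h1
    rw [norm_mul, norm_one] at h2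
    have h3 := hint b hb
    have h4 := hint D hgood.intD
    apply le_antisymm h4
    by_contra hlt
    push Not at hlt
    nlinarith [norm_nonneg (ic w (aeval e b)), norm_nonneg (ic w (aeval e D))]
  have h2u : ‖(2 : w.adicCompletion L)‖ = 1 := by
    have h1 := norm_up_one w 2 hgood.two
    rw [map_ofNat, map_ofNat] at h1
    exact h1
  constructor
  · rintro ⟨s, hs⟩
    have hs1 : ‖s‖ = 1 := by
      have := congrArg norm hs
      rw [hD1, norm_mul] at this
      nlinarith [norm_nonneg s]
    -- approximate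
    let S : Finset (FPl L) := (over_finite hBEL (L := L) v).toFinset
    obtain ⟨z, hz, -⟩ := Pool.Agent.H12.QC.weakApprox S
      (Function.update (fun u : FPl L => (0 : u.adicCompletion L)) w s)
      (fun u => Metric.ball (Function.update (fun u : FPl L => (0 : u.adicCompletion L)) w s u) 1)
      (fun u _ => Metric.ball_mem_nhds _ one_pos) (fun _ => 0) 1 one_pos
    have hzw : ‖ic w z - s‖ < 1 := by
      have h1 := hz w (by simp [S, hv])
      rw [Function.update_self, mem_ball_iff_norm] at h1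
      exact h1
    have hz1 : ‖ic w z‖ ≤ 1 := by
      have h1 : ic w z = (ic w z - s) + s := by ring
      rw [h1]
      exact (IsUltrametricDist.norm_add_le_max _ _).trans (max_le hzw.le hs1.le)
    obtain ⟨Q, hQd, hQe⟩ := exists_poly hG hP z
    have hQi : Int v Q := by
      refine hCFI k L P D e v hG hgood Q hQd fun u hu => ?_
      rw [hQe]
      by_cases huw : u = w
      · rw [huw]
        exact hz1
      · have h1 := hz u (by simp [S, hu])
        rw [Function.update_of_ne huw, mem_ball_zero_iff] at h1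
        exact h1.le
    obtain ⟨Q', hQ'⟩ := exists_lift hR hQi
    refine ⟨Q'.map ρ, ?_⟩
    have h1 := (hq (D' - Q' ^ 2)).2 (by
      rw [Polynomial.map_sub, Polynomial.map_pow, hD', hQ', map_sub, map_pow, hQe, map_sub,
        map_pow, hs]
      have h2 : s * s - ic w z ^ 2 = (s - ic w z) * (s + ic w z) := by ring
      rw [h2, norm_mul]
      have h3 : ‖s + ic w z‖ ≤ 1 :=
        (IsUltrametricDist.norm_add_le_max _ _).trans (max_le hs1.le hz1)
      have h4 : ‖s - ic w z‖ < 1 := by rw [norm_sub_rev]; exact hzw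
      calc ‖s - ic w z‖ * ‖s + ic w z‖ ≤ ‖s - ic w z‖ * 1 :=
            mul_le_mul_of_nonneg_left h3 (norm_nonneg _)
        _ < 1 := by rw [mul_one]; exact h4)
    rw [Polynomial.map_sub, Polynomial.map_pow] at h1
    exact h1
  · rintro ⟨s, hs⟩
    obtain ⟨s', rfl⟩ := Polynomial.map_surjective ρ hR.sur s
    have h1 := (hq (D' - s' ^ 2)).1 (by rw [Polynomial.map_sub, Polynomial.map_pow]; exact hs)
    set Q := s'.map O.subtype with hQ
    rw [Polynomial.map_sub, Polynomial.map_pow, hD', ← hQ, map_sub, map_pow, map_sub, map_pow] at h1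
    set a := ic w (aeval e Q) with ha
    set d := ic w (aeval e D) with hd
    have hQi : Int v Q := by
      intro i
      rw [hQ, coeff_map]
      exact (hR.mem _).1 (s'.coeff i).2
    have ha1 : ‖a‖ ≤ 1 := hint Q hQi
    have ha2 : ‖a‖ = 1 := by
      apply le_antisymm ha1
      by_contra hlt
      push Not at hlt
      have h2 : d = (d - a ^ 2) + a ^ 2 := by ring
      have h3 : ‖a ^ 2‖ < 1 := by
        rw [norm_pow]
        exact pow_lt_one₀ (norm_nonneg _) hlt two_ne_zero
      have h4 : ‖d‖ < 1 := by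
        rw [h2]
        exact (IsUltrametricDist.norm_add_le_max _ _).trans_lt (max_lt h1 h3)
      rw [hD1] at h4
      exact lt_irrefl _ h4
    obtain ⟨b, hb, -, -⟩ := hHEN (w.adicCompletion L) (X ^ 2 - C d) a (by
        intro i
        rw [coeff_sub, coeff_X_pow, coeff_C, sub_eq_add_neg]
        refine (IsUltrametricDist.norm_add_le_max _ _).trans (max_le ?_ ?_)
        · split_ifs
          · rw [norm_one]
          · rw [norm_zero]; exact zero_le_one
        · rw [norm_neg]
          split_ifs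
          · exact hD1.le
          · rw [norm_zero]; exact zero_le_one) ha1 (by
        rw [eval_sub, eval_pow, eval_X, eval_C, norm_sub_rev]
        exact h1) (by
        rw [derivative_sub, derivative_X_pow, derivative_C, sub_zero]
        simp only [Nat.cast_ofNat, eval_mul, eval_C, eval_pow, eval_X]
        rw [norm_mul, h2u, one_mul, norm_pow, ha2, one_pow])
    rw [eval_sub, eval_pow, eval_X, eval_C, sub_eq_zero] at hb
    exact ⟨b, by rw [← hb, pow_two]⟩

end

end Pool.Agent.H59.N6V
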