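import Pool.Agent.H34.N6V.Targets
import Pool.Agent.H34.N6.LibC

/-! Residue fields. -/

set_option autoImplicit false

open Polynomial NumberField IsDedekindDomain Pool.Agent.H32.QC Pool.Agent.H34.N6
  Pool.Agent.H13.DEV Pool.Agent.H34.N6V

namespace Pool.Agent.H59.N6V

theorem mem_A (k : Type) [Field k] [NumberField k] (v : FPl k) (x : k) :
    x ∈ HeightOneSpectrum.valuationSubringAtPrime k v ↔ ‖ic v x‖ ≤ 1 := by
  rw [norm_ic_le_one_iff, HeightOneSpectrum.valuationSubringAtPrime_eq_valuationSubring,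
    Valuation.mem_valuationSubring_iff]

theorem pf_RSF : T_RSF := by
  intro k _ _ v
  let A : ValuationSubring k := HeightOneSpectrum.valuationSubringAtPrime k v
  have hA : ∀ x : k, x ∈ A ↔ ‖ic v x‖ ≤ 1 := mem_A k v
  have hpr : v.asIdeal.IsPrime := v.isPrime
  have hmax : v.asIdeal.IsMaximal := v.isMaximal
  have hloc : IsLocalization.AtPrime A v.asIdeal :=
    inferInstanceAs (IsLocalization v.asIdeal.primeCompl A)
  let F := 𝓞 k ⧸ v.asIdeal
  let hF : Field F := Ideal.Quotient.field v.asIdeal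
  have hfin : Finite F := Ideal.finiteQuotientOfFreeOfNeBot v.asIdeal v.ne_bot
  let e : A →+* F := ((IsLocalization.AtPrime.equivQuotMaximalIdeal v.asIdeal A).symm :
    (A ⧸ IsLocalRing.maximalIdeal A) →+* F).comp (Ideal.Quotient.mk _)
  suffices hker : ∀ x : A, e x = 0 ↔ ‖ic v (x : k)‖ < 1 from
    ⟨F, hF, hfin, A.toSubring, e, fun x => hA x,
      (IsLocalization.AtPrime.equivQuotMaximalIdeal v.asIdeal A).symm.surjective.comp
        Ideal.Quotient.mk_surjective, hker⟩
  · intro x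
    have h1 : e x = 0 ↔ x ∈ IsLocalRing.maximalIdeal A := by
      show (IsLocalization.AtPrime.equivQuotMaximalIdeal v.asIdeal A).symm
        (Ideal.Quotient.mk _ x) = 0 ↔ _
      rw [EmbeddingLike.map_eq_zero_iff, Ideal.Quotient.eq_zero_iff_mem]
    refine h1.trans ?_
    rw [IsLocalRing.mem_maximalIdeal, mem_nonunits_iff]
    have hx1 : ‖ic v (x : k)‖ ≤ 1 := (hA _).1 x.2
    constructor
    · intro hnu
      by_contra hlt
      apply hnu
      have h1 : ‖ic v (x : k)‖ = 1 := le_antisymm hx1 (not_lt.1 hlt)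
      have h0 : (x : k) ≠ 0 := by
        intro h
        rw [h, map_zero, norm_zero] at h1
        exact zero_ne_one h1
      have h2 : (x : k)⁻¹ ∈ A := by
        rw [hA, map_inv₀, norm_inv, h1, inv_one]
      exact IsUnit.of_mul_eq_one (⟨(x : k)⁻¹, h2⟩ : A) (Subtype.ext (mul_inv_cancel₀ h0))
    · rintro hlt ⟨u, hu⟩
      have h3 : ((u : A) : k) * ((u⁻¹ : Aˣ) : A) = 1 := by
        have := congrArg (Subtype.val : A → k) u.mul_inv
        exact this
      have h4 : ‖ic v (((u⁻¹ : Aˣ) : A) : k)‖ ≤ 1 := (hA _).1 ((u⁻¹ : Aˣ) : A).2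
      have h5 : ‖ic v ((u : A) : k)‖ < 1 := by
        rw [hu]
        exact hlt
      have h6 := congrArg (fun t => ‖ic v t‖) h3
      simp only [map_mul, norm_mul, map_one, norm_one] at h6
      nlinarith [norm_nonneg (ic v ((u : A) : k)), norm_nonneg (ic v (((u⁻¹ : Aˣ) : A) : k))]

end Pool.Agent.H59.N6V
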